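import Mathlib
import Pool.Agent.TP975.RP.Wb8

/-!
Exponential sums over the prime values of almost all polynomials, in all short intervals and uniformly in the phase.
-/

set_option autoImplicit false

namespace Pool.Agent.Results.MP_a17b09_nt.AllAdditiveTwists

open Finset Polynomial

/-- the value at `t` of the polynomial with the coefficients `a 0, ..., a d` -/
def value {d : ℕ} (a : Fin (d + 1) → ℤ) (t : ℤ) : ℤ := ∑ c, a c * t ^ (c : ℕ)

/-- the polynomials of degree at most `d` with coefficients in `[-H, H]` -/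
noncomputable def box (d H : ℕ) : Finset (Fin (d + 1) → ℤ) := Fintype.piFinset fun _ => Icc (-(H : ℤ)) H

/-- `exp (2 π i t)` -/
noncomputable def e (t : ℝ) : ℂ := Complex.exp (2 * Real.pi * Complex.I * (t : ℂ))

/-- the sum of `e (g (n))` over the `M < n ≤ M + N` for which `|f(n)|` is a prime -/
noncomputable def primeSum {d : ℕ} (f : Fin (d + 1) → ℤ) (g : ℝ[X]) (M N : ℕ) : ℂ :=
  ∑ n ∈ (Ioc M (M + N)).filter (fun n : ℕ => (value f (n : ℤ)).natAbs.Prime), e (g.eval (n : ℝ))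

open Classical in
/-- the sum of `e (g (n))` over the `M < n ≤ M + N` for which no prime `p ≤ w` divides `f(n)` -/
noncomputable def siftedSum {d : ℕ} (w : ℕ) (f : Fin (d + 1) → ℤ) (g : ℝ[X]) (M N : ℕ) : ℂ :=
  ∑ n ∈ (Ioc M (M + N)).filter (fun n : ℕ => ∀ p ≤ w, p.Prime → ¬ (p : ℤ) ∣ value f (n : ℤ)), e (g.eval (n : ℝ))

/-- the product of `(1 - 1 / p)⁻¹` over the primes `p ≤ w` -/
noncomputable def mertens (w : ℕ) : ℝ := ∏ p ∈ (Icc 1 w).filter Nat.Prime, (1 - 1 / (p : ℝ))⁻¹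

open Classical in
/-- For almost all polynomials `f` of degree at most `d` with coefficients of size at most `H`, the sum of `e (g (n))`
over the `M < n ≤ M + N` for which `|f(n)|` is a prime is
`∏_{p ≤ w} (1 - 1 / p)⁻¹ / log H` times the sum of `e (g (n))` over the `M < n ≤ M + N` for which `f(n)` has no prime
factor up to `w`, with an error of at most `N / (log H (log log H)^B)`, for ALL intervals `(M, M + N]` with
`M + N ≤ (log H)^A` and `(M + N) N^(s (s + 1) / 2) (log H)^(d + ε) ≤ N^(d + 1)` and ALL real polynomials `g` of degree at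
most `s`, if `s (s + 1) < 2 d`. -/
theorem result (d s A B : ℕ) (hd : 2 ≤ d) (hs : s * (s + 1) < 2 * d) (ε : ℝ) (hε : 0 < ε) :
    ∃ E : ℕ, ∀ E' : ℕ, ∃ H₀ : ℕ, ∀ H : ℕ, H₀ ≤ H →
    ∀ w : ℕ, Real.log (Real.log H) ^ E ≤ w → (w : ℝ) ≤ Real.log (Real.log H) ^ E' →
    (((box d H).filter (fun f => ∃ (M N : ℕ) (g : ℝ[X]), g.natDegree ≤ s ∧
      ((M + N : ℕ) : ℝ) ≤ Real.log H ^ A ∧
      ((M + N : ℕ) : ℝ) * (N : ℝ) ^ (s * (s + 1) / 2) * Real.log H ^ ((d : ℝ) + ε) ≤ (N : ℝ) ^ (d + 1) ∧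
      N / (Real.log H * Real.log (Real.log H) ^ B) <
        ‖primeSum f g M N - (mertens w / Real.log H : ℝ) * siftedSum w f g M N‖)).card : ℝ) ≤
      (box d H).card / Real.log (Real.log H) ^ B := by
  obtain ⟨E1, h1⟩ := Pool.Agent.TP975.RP.all_tw d s A B hd hs ε hε
  refine ⟨E1, fun E2 => ?_⟩
  obtain ⟨H1, h1⟩ := h1 E2
  obtain ⟨H2, h2⟩ := Filter.eventually_atTop.1 (Pool.Agent.TP975.RP.ev_log 1)
  refine ⟨max H1 H2, fun H hH w hw1 hw2 => ?_⟩
  have a1 := h1 H (le_trans (le_max_left _ _) hH) w hw1 hw2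
  have a2 := h2 H (le_trans (le_max_right _ _) hH)
  have hL0 : 0 < Real.log H := by linarith
  refine le_trans ?_ a1
  have hsub : (box d H).filter (fun f => ∃ (M N : ℕ) (g : ℝ[X]), g.natDegree ≤ s ∧
      ((M + N : ℕ) : ℝ) ≤ Real.log H ^ A ∧
      ((M + N : ℕ) : ℝ) * (N : ℝ) ^ (s * (s + 1) / 2) * Real.log H ^ ((d : ℝ) + ε) ≤ (N : ℝ) ^ (d + 1) ∧
      N / (Real.log H * Real.log (Real.log H) ^ B) <
        ‖primeSum f g M N - (mertens w / Real.log H : ℝ) * siftedSum w f g M N‖) ⊆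
      (Pool.Agent.TP975.RP.QQ d H).filter (fun f => ∃ (M N : ℕ) (g : ℝ[X]), g.natDegree ≤ s ∧
      ((M + N : ℕ) : ℝ) ≤ Real.log H ^ A ∧
      ((M + N : ℕ) : ℝ) * (N : ℝ) ^ (s * (s + 1) / 2) * Real.log H ^ ((d : ℝ) + ε) ≤ (N : ℝ) ^ (d + 1) ∧
      N / Real.log (Real.log H) ^ B <
        ‖∑ m ∈ Ioc M (M + N), Pool.Agent.H807R2.Dav.ee (g.eval (m : ℝ)) *
          ((Pool.Agent.TP975.RP.Dt (Real.log H) w f m : ℝ) : ℂ)‖) := by
    intro f hf
    rw [mem_filter] at hf ⊢
    obtain ⟨hf1, M, N, g, hg, hX, hc, hlt⟩ := hf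
    refine ⟨hf1, M, N, g, hg, hX, hc, ?_⟩
    have hid : ∑ m ∈ Ioc M (M + N), Pool.Agent.H807R2.Dav.ee (g.eval (m : ℝ)) *
          ((Pool.Agent.TP975.RP.Dt (Real.log H) w f m : ℝ) : ℂ) =
        (Real.log H : ℝ) * (primeSum f g M N - (mertens w / Real.log H : ℝ) * siftedSum w f g M N) := by
      have e1 : (((Real.log H : ℝ)) : ℂ) * ((mertens w / Real.log H : ℝ) : ℂ) = ((mertens w : ℝ) : ℂ) := by
        rw [← Complex.ofReal_mul]
        congr 1
        field_simp
      rw [mul_sub, ← mul_assoc, e1]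
      unfold primeSum siftedSum
      rw [sum_filter, sum_filter, mul_sum, mul_sum, ← sum_sub_distrib]
      refine sum_congr rfl fun m _ => ?_
      have e2 : Pool.Agent.TP975.RP.Dt (Real.log H) w f m = Real.log H * (if (value f (m : ℤ)).natAbs.Prime then 1 else 0) -
          (if (∀ p ≤ w, p.Prime → ¬ (p : ℤ) ∣ value f (m : ℤ)) then mertens w else 0) := by
        unfold Pool.Agent.TP975.RP.Dt Pool.Agent.H373R2.T7.lamz
        have e3 : (∀ p ∈ Pool.Agent.H373R2.T7.pz w, ¬ p ∣ (Pool.Agent.TP975.RP.ev f (m : ℤ)).natAbs) ↔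
            (∀ p ≤ w, p.Prime → ¬ (p : ℤ) ∣ value f (m : ℤ)) := by
          constructor
          · intro h p hp hpp hd
            exact h p (Pool.Agent.H373R2.T7.mem_pz.2 ⟨hp, hpp⟩) (Int.natCast_dvd.1 hd)
          · intro h p hp hd
            rw [Pool.Agent.H373R2.T7.mem_pz] at hp
            exact h p hp.1 hp.2 (Int.natCast_dvd.2 hd)
        have e4 : (Pool.Agent.H373R2.T7.Vz w)⁻¹ = mertens w := by
          unfold Pool.Agent.H373R2.T7.Vz mertens
          rw [← prod_inv_distrib]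
          rfl
        rw [e4]
        congr 1
        by_cases h : ∀ p ≤ w, p.Prime → ¬ (p : ℤ) ∣ value f (m : ℤ)
        · rw [if_pos h, if_pos (e3.2 h)]
        · rw [if_neg h, if_neg (fun h' => h (e3.1 h'))]
      rw [e2]
      have e5 : Pool.Agent.H807R2.Dav.ee (g.eval (m : ℝ)) = e (g.eval (m : ℝ)) := rfl
      rw [e5]
      by_cases h1 : (value f (m : ℤ)).natAbs.Prime
      · by_cases h2 : (∀ p ≤ w, p.Prime → ¬ (p : ℤ) ∣ value f (m : ℤ))
        · rw [if_pos h1, if_pos h1, if_pos h2, if_pos h2]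
          push_cast
          ring
        · rw [if_pos h1, if_pos h1, if_neg h2, if_neg h2]
          push_cast
          ring
      · by_cases h2 : (∀ p ≤ w, p.Prime → ¬ (p : ℤ) ∣ value f (m : ℤ))
        · rw [if_neg h1, if_neg h1, if_pos h2, if_pos h2]
          push_cast
          ring
        · rw [if_neg h1, if_neg h1, if_neg h2, if_neg h2]
          push_cast
          ring
    rw [hid, norm_mul, Complex.norm_real, Real.norm_of_nonneg hL0.le]
    have h3 := mul_lt_mul_of_pos_left hlt hL0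
    refine lt_of_le_of_lt (le_of_eq ?_) h3
    field_simp
  exact_mod_cast card_le_card hsub

end Pool.Agent.Results.MP_a17b09_nt.AllAdditiveTwists
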