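import Pool.Agent.helper616_RP.Main
import Pool.Agent.helper616_RP.Var

/-!
# Conjecture F and the formula of Bateman and Horn for almost all real polynomials

Let `F_i (x) = α_i x ^ (c_i) + β_i x ^ (c'_i)`, `0 < c'_i < c_i`, `i ≤ k`, and let `g_i` be arbitrary
functions on the natural numbers with `|g_i (n)| ≤ K_i n ^ (c_i)`. For almost all pairs of parameters
`(α_i, β_i)` with `α_i > K_i` the numbers `⌊F_i (n) + g_i (n)⌋` are simultaneously prime for the
expected number of `n`: here `n` may run over any given strictly increasing sequence `s` of exponent of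
growth `D` (that is `s_r ≤ r ^ D`) with `D (1 - c'_i + c_i / 3) < 1`.

Examples. `k = 1`, `s_r = r`, `c = d ≥ 2`, `c' = d - 1` (`K` arbitrarily small): for almost all
`(α, β)`, `α > 0`, the number of `n < N` with `⌊α n ^ d + β n ^ (d - 1) + g (n)⌋` prime is
`~ N / (d log N)` for a given `g (n) = o (n ^ d)`; so this holds for almost all real polynomials of
degree `d` (Fubini), in particular for almost all real quadratic polynomials `a t ^ 2 + b t + c`.
For `d = 2` the arguments may be restricted to a sequence `s_r ≤ r ^ D`, `D < 3 / 2`, for example the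
primes, and for `d ≥ 3` to any sequence of polynomial growth.

Proof. The mean square over `(α, β)` in a unit square. For `n < m` translate `(α, β)` along the line on
which `α n ^ c + β n ^ c'` is constant: then the value at `m` runs over an interval of length a power of
its size larger than the exponent `1 / 3`, and the primes in almost all such intervals are known
(`S_SIL13` of the project UT of helper24).
-/

set_option autoImplicit false

open Finset MeasureTheory Filter Topology

namespace Pool.Agent.Results.MP_a17b09_nt.AlmostAllReal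

/-- `log m` if `m` is prime, and `0` otherwise. -/
noncomputable def logPrime (m : ℕ) : ℝ := if m.Prime then Real.log m else 0

/-- The integer part of `α n ^ c + β n ^ c' + g n`, where `ω = (α, β)` (`0` if this number is negative). -/
noncomputable def value (c c' : ℝ) (g : ℕ → ℝ) (ω : ℝ × ℝ) (n : ℕ) : ℕ :=
  ⌊ω.1 * (n : ℝ) ^ c + ω.2 * (n : ℝ) ^ c' + g n⌋₊

theorem result (k : ℕ) (c c' K : Fin k → ℝ) (g : Fin k → ℕ → ℝ)
    (hc' : ∀ i, 0 < c' i) (hcc : ∀ i, c' i < c i) (hK : ∀ i, 0 ≤ K i)
    (hg : ∀ i, ∀ᶠ n : ℕ in atTop, |g i n| ≤ K i * (n : ℝ) ^ (c i))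
    (s : ℕ → ℕ) (hs : StrictMono s) (D : ℝ) (hD : ∀ᶠ r : ℕ in atTop, (s r : ℝ) ≤ (r : ℝ) ^ D)
    (hDc : ∀ i, D * (1 - c' i + c i / 3) < 1) :
    ∀ᵐ ω : Fin k → ℝ × ℝ, (∀ i, K i < (ω i).1) →
      (∀ A : ℕ, ∃ C : ℝ, ∀ R : ℕ, 2 ≤ R →
        |∑ r ∈ range R, ∏ i, logPrime (value (c i) (c' i) (g i) (ω i) (s r)) - R| ≤
          C * R / (Real.log R) ^ A) ∧
      Tendsto (fun R : ℕ =>
        (((range R).filter (fun r => ∀ i, (value (c i) (c' i) (g i) (ω i) (s r)).Prime)).card : ℝ) /
          ∑ r ∈ (range R).filter (fun r => 2 ≤ s r), ∏ i, 1 / (c i * Real.log (s r))) atTop (𝓝 1) :=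
  helper616_RP.main helper616_RP.t_VAR c c' K g hc' hcc hK hg s hs D hD
    (fun i => by have := hDc i; rwa [sub_add] at this)

end Pool.Agent.Results.MP_a17b09_nt.AlmostAllReal
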