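import Pool.Agent.H662.RC.Conc

set_option autoImplicit false

/-!
# Upper bounds for prime values of quadratic polynomials in almost all residue classes

For an individual residue class modulo `q` the sieve gives at most `4 + δ` times
`C X / (r(q) log (X / q))` integers `t ≤ X` in the class with `f(t)` prime, where `C = C(a,b,c)` and `r(q)`
is the number of the classes at which `f` is prime to `q`. Here `4 / log (X / q)` is replaced by
`8 / log (X ^ 2 / q)` for all but few of the classes, for every modulus `q ≤ X ^ θ`, `θ < 1`.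
-/

namespace Pool.Agent.Results.MP_a17b09_nt.ResidueClasses

open Finset Filter Topology

/-- The number of the integers `1 ≤ t ≤ X` with `t ≡ r mod q` such that `|a t ^ 2 + b t + c|` is a
prime. -/
def primeCount (a b c : ℤ) (X q r : ℕ) : ℕ :=
  ((Icc 1 X).filter (fun t : ℕ =>
    t ≡ r [MOD q] ∧ (a * (t : ℤ) ^ 2 + b * (t : ℤ) + c).natAbs.Prime)).card

/-- The number of the residue classes `t mod q` such that `a t ^ 2 + b t + c` is prime to `q`. -/
def admissible (a b c : ℤ) (q : ℕ) : ℕ :=
  ((range q).filter (fun t : ℕ => (a * (t : ℤ) ^ 2 + b * (t : ℤ) + c).natAbs.Coprime q)).card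

/-- The number of the roots of `a t ^ 2 + b t + c` modulo `p`. -/
def roots (a b c : ℤ) (p : ℕ) : ℕ :=
  ((range p).filter (fun t : ℕ => (p : ℤ) ∣ a * (t : ℤ) ^ 2 + b * (t : ℤ) + c)).card

open Classical in
/-- **Prime values of quadratic polynomials in almost all residue classes.** Let `(a, b, c)` be an
admissible triple, `f(t) = a t ^ 2 + b t + c`, `ω(p)` the number of roots of `f` modulo `p`, `r(q)` the
number of the classes modulo `q` at which `f` is prime to `q`. The products over `p ≤ x` of
`(1 - ω(p) / p) / (1 - 1 / p)` converge, to `2 C` with `C > 0`; and for all `0 < θ < 1` and `δ > 0` there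
is `κ > 0` such that for all large `X` and every modulus `1 ≤ q ≤ X ^ θ`, for all but at most
`r(q) X ^ (-κ)` of the residue classes modulo `q` the number of the `t ≤ X` in the class with `|f(t)|`
prime is at most `(8 + δ) C X / (r(q) log (X ^ 2 / q))`. -/
theorem result (a b c : ℤ) (ha : 0 < a) (hg : Int.gcd (Int.gcd a b : ℤ) c = 1)
    (h2 : ¬ (Even (a + b) ∧ Even c)) (hD : ¬ IsSquare (b ^ 2 - 4 * a * c)) :
    ∃ C : ℝ, 0 < C ∧
      Tendsto (fun x : ℕ => 1 / 2 * ∏ p ∈ (range (x + 1)).filter Nat.Prime,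
        (1 - (roots a b c p : ℝ) / p) / (1 - 1 / (p : ℝ))) atTop (𝓝 C) ∧
      ∀ θ δ : ℝ, 0 < θ → θ < 1 → 0 < δ → ∃ κ : ℝ, 0 < κ ∧
        ∀ᶠ X : ℕ in atTop, ∀ q : ℕ, 0 < q → (q : ℝ) ≤ (X : ℝ) ^ θ →
          (((range q).filter (fun r : ℕ =>
            (8 + δ) * C * ((X : ℝ) / ((admissible a b c q : ℝ) * Real.log ((X : ℝ) ^ 2 / q))) <
              (primeCount a b c X q r : ℝ))).card : ℝ) ≤
            (admissible a b c q : ℝ) * (X : ℝ) ^ (-κ) :=
  Pool.Agent.H662.RC.quad_main a b c ha (Pool.Agent.H662.RC.gcd_cond a b c hg)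
    (Pool.Agent.H662.RC.even_cond a b c h2) hD

end Pool.Agent.Results.MP_a17b09_nt.ResidueClasses
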