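import Pool.Agent.helper24_TP.Fin

set_option autoImplicit false

/-!
# Conjecture F of Hardy and Littlewood for almost all pairs `(b, c)`, for arguments up to the height

Let `ε > 0` and `A ≥ 0`. There is a `B` such that for all large `H`, for every leading coefficient
`1 ≤ a ≤ H ^ (1 - ε)`, and for all but at most `H ^ 2 / (log H) ^ A` of the pairs `(b, c)` with
`1 ≤ b, c ≤ H`: if `(a, b, c)` is admissible, then the product `C(a, b, c)` converges, and

`π_f(y) = (1 + θ (log H) ^ (-A)) 2 C(a, b, c) ∑_{t ≤ y} 1 / log f(t)`, with `|θ| ≤ 1`,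

for all `(log H) ^ B ≤ y ≤ H / (a (log H) ^ B)`, where `f(t) = a t² + b t + c`.

So for a bounded leading coefficient the arguments reach the height `H` of the polynomial up to
powers of `log H`. For `b` of size `H` the constant term `c ≤ H` alone does not give enough averaging
for this: the values of `f` at `t ≤ y` are then of size `b y`, as many as the pairs `(c, t)`.

Proof. Circle method for the difference of the primes and their sieve model along `c + b t + a t²`,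
in mean square over `(b, c)`. On the minor arcs the average over `b` and `c` leaves the pairs `t, t'`
with `(t - t') h / N` near an integer, and these are few. On the major arcs one has bilinear sums over
`t` and the frequencies in intervals longer than `1 / x`: here the phase is nearly linear in `t` on
blocks, the average over `b` gives geometric sums, and the test of Schur, the bound of Kusmin and
Landau for the small frequencies, and the theorem of Siegel and Walfisz give the saving. Then the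
singular series is compared with the product over `p ≤ (log H) ^ E`, and this product with
`C(a, b, c)` for almost all `c`, for each `b`.
-/

namespace Pool.Agent.Results.MP_a17b09_nt.TwoCoefficients

open Finset Filter Topology

/-- The polynomial. -/
def f (a b c : ℤ) (t : ℕ) : ℤ := a * (t : ℤ) ^ 2 + b * (t : ℤ) + c

/-- The triple `(a, b, c)`, `a > 0`, is admissible. -/
def Admissible (a b c : ℤ) : Prop :=
  Int.gcd (Int.gcd a b : ℤ) c = 1 ∧ ¬ (Even (a + b) ∧ Even c) ∧ ¬ IsSquare (b ^ 2 - 4 * a * c)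

/-- The products which define `C(a, b, c)`, over the primes `p ≤ z` (`jacobiSym Δ p` is the Legendre symbol). -/
noncomputable def partialC (a b c : ℤ) (z : ℕ) : ℝ :=
  (if Odd (a + b) then 1 / 2 else 1) *
    (∏ p ∈ (Icc 3 z).filter (fun p : ℕ => p.Prime ∧ (p : ℤ) ∣ a ∧ (p : ℤ) ∣ b), (p : ℝ) / (p - 1)) *
    ∏ p ∈ (Icc 3 z).filter (fun p : ℕ => p.Prime ∧ ¬ (p : ℤ) ∣ a),
      (1 - (jacobiSym (b ^ 2 - 4 * a * c) p : ℝ) / (p - 1))

/-- `K = C(a, b, c)`: the products over the primes, in increasing order, converge to `K`. -/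
def IsC (a b c : ℤ) (K : ℝ) : Prop := Tendsto (partialC a b c) atTop (𝓝 K)

/-- `π_f(y)`. -/
def count (a b c : ℤ) (y : ℕ) : ℕ := ((Icc 1 y).filter (fun t : ℕ => (f a b c t).toNat.Prime)).card

/-- The conclusion for one polynomial. -/
def Good (A B H : ℕ) (a b c : ℤ) : Prop :=
  ∃ K : ℝ, 0 < K ∧ IsC a b c K ∧
    ∀ y : ℕ, Real.log H ^ B ≤ y → (a : ℝ) * y * Real.log H ^ B ≤ H →
      |(count a b c y : ℝ) - 2 * K * ∑ t ∈ Icc 1 y, 1 / Real.log ((f a b c t : ℤ) : ℝ)| ≤
        2 * K * (∑ t ∈ Icc 1 y, 1 / Real.log ((f a b c t : ℤ) : ℝ)) / Real.log H ^ A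

open Classical in
/-- The number of the pairs `1 ≤ b, c ≤ H` for which `(a, b, c)` is admissible and the conclusion fails. -/
noncomputable def exceptions (A B H : ℕ) (a : ℤ) : ℕ :=
  ((Icc 1 (H : ℤ) ×ˢ Icc 1 (H : ℤ)).filter (fun bc : ℤ × ℤ =>
    Admissible a bc.1 bc.2 ∧ ¬ Good A B H a bc.1 bc.2)).card

lemma partialC_eq (a b c : ℤ) (z : ℕ) : partialC a b c z = Pool.Agent.W468.ConjF.CF a b c z := by
  unfold partialC Pool.Agent.W468.ConjF.CF
  have e0 : (if Odd (a + b) then (1 / 2 : ℝ) else 1) = if (2 : ℤ) ∣ a + b then 1 else 1 / 2 := by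
    by_cases h : (2 : ℤ) ∣ a + b
    · rw [if_pos h, if_neg (Int.not_odd_iff_even.2 (even_iff_two_dvd.2 h))]
    · rw [if_neg h, if_pos (Int.not_even_iff_odd.1 (fun h' => h h'.two_dvd))]
  have e1 : (Icc 3 z).filter (fun p : ℕ => p.Prime ∧ (p : ℤ) ∣ a ∧ (p : ℤ) ∣ b) =
      (range (z + 1)).filter (fun p : ℕ => p.Prime ∧ 3 ≤ p ∧ (p : ℤ) ∣ a ∧ (p : ℤ) ∣ b) := by
    ext p
    simp only [mem_filter, mem_range, mem_Icc]
    constructor
    · rintro ⟨⟨h1, h2⟩, h3, h4⟩
      exact ⟨by omega, h3, h1, h4⟩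
    · rintro ⟨h1, h2, h3, h4⟩
      exact ⟨⟨h3, by omega⟩, h2, h4⟩
  have e2 : (Icc 3 z).filter (fun p : ℕ => p.Prime ∧ ¬ (p : ℤ) ∣ a) =
      (range (z + 1)).filter (fun p : ℕ => p.Prime ∧ 3 ≤ p ∧ ¬ (p : ℤ) ∣ a) := by
    ext p
    simp only [mem_filter, mem_range, mem_Icc]
    constructor
    · rintro ⟨⟨h1, h2⟩, h3, h4⟩
      exact ⟨by omega, h3, h1, h4⟩
    · rintro ⟨h1, h2, h3, h4⟩
      exact ⟨⟨h3, by omega⟩, h2, h4⟩
  rw [e0, e1, e2]

lemma adm {a b c : ℤ} (ha : 0 < a) (h : Admissible a b c) : Pool.Agent.W468.ConjF.Admissible a b c := by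
  refine ⟨ha, fun d h1 h2 h3 => ?_, ?_, h.2.2⟩
  · have h4 : d ∣ (Int.gcd (Int.gcd a b : ℤ) c : ℤ) := Int.dvd_coe_gcd (Int.dvd_coe_gcd h1 h2) h3
    rw [h.1] at h4
    exact isUnit_of_dvd_one (by exact_mod_cast h4)
  · rintro ⟨h1, h2⟩
    exact h.2.1 ⟨even_iff_two_dvd.2 h1, even_iff_two_dvd.2 h2⟩

/-- **Conjecture F for almost all pairs `(b, c)` and all `(log H) ^ B ≤ y ≤ H / (a (log H) ^ B)`.** -/
theorem result (ε : ℝ) (hε : 0 < ε) (A : ℕ) : ∃ B H₀ : ℕ, ∀ H : ℕ, H₀ ≤ H → ∀ a : ℤ, 1 ≤ a →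
    (a : ℝ) ≤ (H : ℝ) ^ (1 - ε) → (exceptions A B H a : ℝ) ≤ (H : ℝ) ^ 2 / Real.log H ^ A := by
  classical
  obtain ⟨B, H₀, h0⟩ := Pool.Agent.helper24_TP.final ε hε A
  refine ⟨B, H₀, fun H hH a ha haH => ?_⟩
  obtain ⟨α, rfl⟩ : ∃ α : ℕ, a = α := ⟨a.toNat, by omega⟩
  have hα : 1 ≤ α := by exact_mod_cast ha
  obtain ⟨Bad, hB1, hB2⟩ := h0 H hH α hα (by exact_mod_cast haH)
  refine le_trans ?_ hB1
  unfold exceptions
  have hsub : (Icc 1 (H : ℤ) ×ˢ Icc 1 (H : ℤ)).filter (fun bc : ℤ × ℤ =>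
      Admissible α bc.1 bc.2 ∧ ¬ Good A B H α bc.1 bc.2) ⊆
      Bad.image (fun bc : ℕ × ℕ => ((bc.1 : ℤ), (bc.2 : ℤ))) := by
    rintro ⟨b, c⟩ hbc
    rw [mem_filter, mem_product, mem_Icc, mem_Icc] at hbc
    obtain ⟨⟨⟨b1, b2⟩, c1, c2⟩, hadm, hng⟩ := hbc
    simp only at b1 b2 c1 c2 hadm hng
    obtain ⟨β, rfl⟩ : ∃ β : ℕ, b = β := ⟨b.toNat, by omega⟩
    obtain ⟨γ, rfl⟩ : ∃ γ : ℕ, c = γ := ⟨c.toNat, by omega⟩
    rw [mem_image]
    refine ⟨(β, γ), ?_, rfl⟩
    by_contra hcon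
    apply hng
    have hf : ∀ t : ℕ, f α β γ t = ((γ + α * t ^ 2 + β * t : ℕ) : ℤ) := by
      intro t
      unfold f
      push_cast
      ring
    obtain ⟨K, k1, k2, k3⟩ := hB2 β (mem_Icc.2 ⟨by exact_mod_cast b1, by exact_mod_cast b2⟩) γ
      (mem_Icc.2 ⟨by exact_mod_cast c1, by exact_mod_cast c2⟩) hcon (adm (by exact_mod_cast hα) hadm)
    refine ⟨K, k1, ?_, fun y hyL hy => ?_⟩
    · unfold IsC
      have : partialC (α : ℤ) (β : ℤ) (γ : ℤ) = fun z => Pool.Agent.W468.ConjF.CF (α : ℤ) (β : ℤ) (γ : ℤ) z := by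
        funext z
        exact partialC_eq _ _ _ z
      rw [this]
      exact k2
    · have h1 := k3 y hyL (by exact_mod_cast hy)
      unfold count
      simp only [hf, Int.toNat_natCast]
      exact_mod_cast h1
  exact_mod_cast (card_le_card hsub).trans card_image_le

end Pool.Agent.Results.MP_a17b09_nt.TwoCoefficients
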